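import Mathlib
import Pool.Agent.Lib_MP_e12783_co.Main
import Pool.Agent.Lib_MP_e12783_co.Exist

set_option autoImplicit false

/-!
# Partitions in which every vertex has out-neighbours in all classes

For all `r ≥ 2`, `s`, `k` there is a `d` such that every finite loopless digraph with all outdegrees at least `d` has a
colouring with `r` colours in which every vertex has at least `s` out-neighbours of every colour, or it has an
unbalanced pair `(I, Y)`: an independent set `I` with `k |Y| < |I|` whose vertices have pairwise different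
out-neighbourhoods and less than `d` out-neighbours outside `Y`.
-/

namespace Pool.Agent.Results.MP_e12783_co.BothClasses

open Pool.Agent.Lib_MP_e12783_co

variable {V : Type}

/-- The outdegree `d` is large with respect to `r`, `s`, `k`.  For `r = s = 2` the inequality reads
`16 k d ^ 3 (d + 1) ≤ 2 ^ d`. -/
def Large (r s k d : ℕ) : Prop :=
  1 ≤ d ∧ 8 * k * d ^ 3 *
    (r * ∑ i ∈ Finset.range s, d.choose i * (r - 1) ^ (d - i)) ≤ r ^ d

/-- Every vertex has at least `s` out-neighbours of each of the `r` colours. -/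
def SeesAll (G : Digraph V) (r s : ℕ) : Prop :=
  ∃ c : V → Fin r, ∀ v, ∀ b : Fin r, s ≤ {w | c w = b ∧ G.Adj v w}.ncard

/-- An unbalanced pair: `Y` is nonempty, `I` is disjoint from `Y`, there is no arc inside `I`, the out-neighbourhoods of
the vertices of `I` are pairwise different, `k |Y| < |I|`, every vertex of `I` has less than `d` out-neighbours outside
`Y`, and some vertex of `Y` has more than `k` in-neighbours in `I`. -/
def Unbalanced (G : Digraph V) (k d : ℕ) (I Y : Finset V) : Prop :=
  Y.Nonempty ∧ Disjoint I Y ∧ (∀ u ∈ I, ∀ v ∈ I, ¬ G.Adj u v) ∧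
    (∀ u ∈ I, ∀ v ∈ I, u ≠ v → {w | G.Adj u w} ≠ {w | G.Adj v w}) ∧
    k * Y.card < I.card ∧ (∀ v ∈ I, {w | G.Adj v w ∧ w ∉ Y}.ncard < d) ∧
    ∃ y ∈ Y, k < {v | v ∈ I ∧ G.Adj v y}.ncard

/-- **Main theorem.** All large `d` satisfy the explicit condition `Large r s k d`, and under this condition every finite
loopless digraph with all outdegrees at least `d` has a colouring with `r` colours in which every vertex has at least
`s` out-neighbours of every colour, or it has an unbalanced pair. -/
theorem result : ∀ r s k : ℕ, 2 ≤ r → 1 ≤ k →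
    (∃ d₀ : ℕ, ∀ d ≥ d₀, Large r s k d) ∧
    ∀ d : ℕ, Large r s k d → ∀ (V : Type) [Finite V] [Nonempty V] (G : Digraph V),
      (∀ v, ¬ G.Adj v v) → (∀ v, d ≤ {w | G.Adj v w}.ncard) →
      SeesAll G r s ∨ ∃ I Y, Unbalanced G k d I Y := by
  intro r s k hr hk
  constructor
  · obtain ⟨D, hD⟩ := exists_large r s (8 * k) 3 hr
    refine ⟨max D 1, fun d hd => ⟨le_trans (le_max_right _ _) hd, ?_⟩⟩
    exact hD d (le_trans (le_max_left _ _) hd)
  intro d hL V _ _ G hloop hdeg
  obtain ⟨hd, hcond⟩ := hL
  classical
  have : Fintype V := Fintype.ofFinite V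
  have : Nonempty (Fin r) := ⟨⟨0, by omega⟩⟩
  let N : V → Finset V := fun v => Finset.univ.filter (fun w => G.Adj v w)
  have hN : ∀ v w, w ∈ N v ↔ G.Adj v w := fun v w => by simp [N]
  have hNloop : ∀ v, v ∉ N v := fun v h => hloop v ((hN v v).mp h)
  have hNset : ∀ v, {w | G.Adj v w} = (N v : Set V) := by
    intro v
    ext w
    simp [N]
  have hNcard : ∀ v, d ≤ (N v).card := by
    intro v
    have h3 := hdeg v
    rwa [hNset, Set.ncard_coe_finset] at h3
  have hcond' : 8 * k * d ^ 3 *
      (Fintype.card (Fin r) * few (Fintype.card (Fin r)) s d) ≤ Fintype.card (Fin r) ^ d := by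
    rw [Fintype.card_fin]
    exact hcond
  rcases main_aux (C := Fin r) N hNloop s d k hd hk hcond' hNcard with
    ⟨c, hc⟩ | ⟨I, Y, hY, hIY, hind, hdist, hlarge, hfew⟩
  · left
    refine ⟨c, fun v b => ?_⟩
    have h2 : {w | c w = b ∧ G.Adj v w} =
        (((N v).filter (fun u => c u = b) : Finset V) : Set V) := by
      ext w
      simp [N, and_comm]
    rw [h2, Set.ncard_coe_finset]
    exact hc v b
  · right
    refine ⟨I, Y, hY, hIY, ?_, ?_, hlarge, ?_, ?_⟩
    · intro u hu v hv h
      exact hind v hv u hu ((hN u v).mpr h)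
    · intro u hu v hv huv h
      apply huv
      apply hdist u hu v hv
      rw [hNset, hNset] at h
      exact_mod_cast h
    · intro v hv
      have h2 : {w | G.Adj v w ∧ w ∉ Y} = ((N v \ Y : Finset V) : Set V) := by
        ext w
        simp [N]
      rw [h2, Set.ncard_coe_finset]
      exact hfew v hv
    · obtain ⟨y, hy, hyc⟩ := exists_star N d k hNcard I Y hlarge hfew
      refine ⟨y, hy, ?_⟩
      have h2 : {v | v ∈ I ∧ G.Adj v y} = ((I.filter (fun v => y ∈ N v) : Finset V) : Set V) := by
        ext w
        simp [N]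
      rw [h2, Set.ncard_coe_finset]
      exact hyc

end Pool.Agent.Results.MP_e12783_co.BothClasses
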