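import Pool.Agent.Lib_MP_e12783.Final

set_option autoImplicit false

/-!
# Splitting digraphs with few hubs

For `0 < ε < 1` there are `δ > 0` and `d₀` such that every digraph with all outdegrees at least
`d ≥ d₀` has a partition into two nonempty parts in which every vertex has at least `δ d ≥ 2`
out-neighbours in its own part, provided that for some set `H` of vertices (the hubs)

* every vertex outside `H` has indegree at most `(1 + δ) ^ d`,
* for every `a ∈ H` at most `(2 - ε) ^ d` elements `b` of `H` are dependent on `a`: there is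
  `s ∈ H` which can be reached from `a` and from `b` by directed paths without interior vertices
  in `H`.

The second condition holds if `H` has at most `(2 - ε) ^ d` elements.
-/

namespace Pool.Agent.Results.MP_e12783_co.FewHubs

/-- `Reach G H v s`: there is a directed walk of positive length from `v` to `s` all of whose
interior vertices are outside `H`. -/
inductive Reach {V : Type} (G : Digraph V) (H : Set V) : V → V → Prop
  | arc {v s : V} : G.Adj v s → Reach G H v s
  | cons {v u s : V} : G.Adj v u → u ∉ H → Reach G H u s → Reach G H v s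

theorem reach_of {V : Type} {G : Digraph V} {H : Set V} {N : V → Finset V}
    (hN : ∀ v u, u ∈ N v → G.Adj v u) {v s : V}
    (h : Pool.Agent.Lib_MP_e12783.Reach (fun v u => u ∈ N v) H v s) : Reach G H v s := by
  induction h with
  | arc ha => exact Reach.arc (hN _ _ ha)
  | cons ha hu _ ih => exact Reach.cons (hN _ _ ha) hu ih

/-- **Splitting digraphs with few hubs.** -/
theorem result (ε : ℝ) (hε0 : 0 < ε) (hε1 : ε < 1) :
    ∃ δ : ℝ, 0 < δ ∧ ∃ d₀ : ℕ, ∀ d ≥ d₀, ∀ (V : Type) [Finite V] [Nonempty V] (G : Digraph V),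
      (∀ v, d ≤ {w | G.Adj v w}.ncard) →
      ∀ H : Set V,
        (∀ u, u ∉ H → ({v | G.Adj v u}.ncard : ℝ) ≤ (1 + δ) ^ d) →
        (∀ a ∈ H, ({b | b ∈ H ∧ ∃ s ∈ H, Reach G H a s ∧ Reach G H b s}.ncard : ℝ) ≤
          (2 - ε) ^ d) →
        2 ≤ δ * d ∧
        ∃ S : Set V, S.Nonempty ∧ Sᶜ.Nonempty ∧
          (∀ v ∈ S, δ * d ≤ ({w | w ∈ S ∧ G.Adj v w}.ncard : ℝ)) ∧
          (∀ v ∈ Sᶜ, δ * d ≤ ({w | w ∈ Sᶜ ∧ G.Adj v w}.ncard : ℝ)) := by
  classical
  obtain ⟨δ, hδ, d₀, h⟩ := Pool.Agent.Lib_MP_e12783.few_hubs ε hε0 hε1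
  refine ⟨δ, hδ, d₀, ?_⟩
  intro d hd V _ _ G hout H hin hH
  have : Fintype V := Fintype.ofFinite V
  have hex : ∀ v, ∃ N : Finset V, (∀ u ∈ N, G.Adj v u) ∧ N.card = d := by
    intro v
    have h1 : d ≤ (Finset.univ.filter fun w => G.Adj v w).card := by
      have h2 := hout v
      rw [Set.ncard_eq_toFinset_card' {w | G.Adj v w}] at h2
      refine h2.trans (Finset.card_le_card ?_)
      intro w hw
      rw [Set.mem_toFinset] at hw
      exact Finset.mem_filter.mpr ⟨Finset.mem_univ _, hw⟩
    obtain ⟨N, hN1, hN2⟩ := Finset.exists_subset_card_eq h1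
    exact ⟨N, fun u hu => (Finset.mem_filter.mp (hN1 hu)).2, hN2⟩
  choose N hN1 hN2 using hex
  have hcoe : ((H.toFinset : Finset V) : Set V) = H := Set.coe_toFinset H
  obtain ⟨h2, f, hf1, ⟨v1, hv1⟩, ⟨v2, hv2⟩⟩ := h d hd V N H.toFinset hN2 (by
    intro u hu
    rw [Set.mem_toFinset] at hu
    refine le_trans ?_ (hin u hu)
    rw [← Set.ncard_coe_finset]
    have h3 : (((Finset.univ : Finset V).filter fun v => u ∈ N v : Finset V) : Set V) ⊆
        {v | G.Adj v u} := by
      intro v hv
      rw [Finset.mem_coe, Finset.mem_filter] at hv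
      exact hN1 v u hv.2
    exact_mod_cast Set.ncard_le_ncard h3 (Set.toFinite _)) (by
    intro a ha
    rw [Set.mem_toFinset] at ha
    refine le_trans ?_ (hH a ha)
    rw [← Set.ncard_coe_finset, hcoe]
    refine Nat.cast_le.mpr (Set.ncard_le_ncard ?_ (Set.toFinite _))
    intro b hb
    rw [Finset.mem_coe, Finset.mem_filter, Set.mem_toFinset] at hb
    obtain ⟨hb1, s, hs1, hs2, hs3⟩ := hb
    rw [Set.mem_toFinset] at hs1
    exact ⟨hb1, s, hs1, reach_of hN1 hs2, reach_of hN1 hs3⟩)
  refine ⟨h2, {v | f v = true}, ⟨v1, hv1⟩, ⟨v2, ?_⟩, ?_, ?_⟩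
  · intro h4
    have h5 : f v2 = true := h4
    rw [hv2] at h5
    exact absurd h5 (by decide)
  · intro v hv
    have hv' : f v = true := hv
    refine (hf1 v).trans ?_
    rw [← Set.ncard_coe_finset]
    refine Nat.cast_le.mpr (Set.ncard_le_ncard ?_ (Set.toFinite _))
    intro u hu
    rw [Finset.mem_coe, Finset.mem_filter, hv'] at hu
    exact ⟨hu.2, hN1 v u hu.1⟩
  · intro v hv
    have hv' : f v = false := by
      have h4 : ¬ f v = true := hv
      simpa using h4
    refine (hf1 v).trans ?_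
    rw [← Set.ncard_coe_finset]
    refine Nat.cast_le.mpr (Set.ncard_le_ncard ?_ (Set.toFinite _))
    intro u hu
    rw [Finset.mem_coe, Finset.mem_filter, hv'] at hu
    refine ⟨?_, hN1 v u hu.1⟩
    intro h4
    have h5 : f u = true := h4
    rw [hu.2] at h5
    exact absurd h5 (by decide)

end Pool.Agent.Results.MP_e12783_co.FewHubs
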