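import Mathlib
import Pool.Agent.Lib_MP_e12783_co.Final
import Pool.Agent.Lib_MP_e12783_co.Exist

set_option autoImplicit false

/-!
# Splitting digraphs without many disjoint anticomplete legs

For all `r ≥ 2`, `s`, `ℓ`, `m` there is a `d` such that every finite loopless digraph with all outdegrees at least `d`
has a partition into `r` nonempty classes in which every vertex has at least `s` out-neighbours in its own class, or it
has a vertex with more than `m` legs of size `ℓ`, that is, pairwise disjoint and pairwise anticomplete connected sets of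
`ℓ` vertices that send arcs to it.
-/

namespace Pool.Agent.Results.MP_e12783_co.LegsOrSplit

open Pool.Agent.Lib_MP_e12783_co

variable {V : Type}

/-- The vertices can be partitioned into `r` nonempty classes such that every vertex has at least `s` out-neighbours
in its own class. -/
def SplitsInto (G : Digraph V) (r s : ℕ) : Prop :=
  ∃ c : V → Fin r, Function.Surjective c ∧ ∀ v, s ≤ {w | c w = c v ∧ G.Adj v w}.ncard

/-- The vertices `v ∈ P` are in-neighbours of `y`, and the sets `K v` (`v ∈ P`) are legs of size `ℓ`: `K v` has `ℓ`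
vertices, contains `v` but not `y`, and every vertex of `K v` has a directed path to `v` inside `K v`; different legs
are disjoint and there is no arc between them. -/
def Legs (G : Digraph V) (ℓ : ℕ) (y : V) (P : Finset V) (K : V → Finset V) : Prop :=
  (∀ v ∈ P, G.Adj v y ∧ v ∈ K v ∧ (K v).card = ℓ ∧ y ∉ K v ∧
    ∀ x ∈ K v, Relation.ReflTransGen (fun a b => a ∈ K v ∧ b ∈ K v ∧ G.Adj a b) x v) ∧
  ∀ u ∈ P, ∀ v ∈ P, u ≠ v → Disjoint (K u) (K v) ∧ ∀ x ∈ K u, ∀ z ∈ K v, ¬ G.Adj x z

/-- The outdegree `d` is large with respect to the number `r` of classes, the outdegree `s` in the classes, the size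
`ℓ` and the number `m` of legs.  For `r = s = 2` the last inequality reads
`48 m ℓ (d + ℓ) ^ ℓ d ^ 3 (d + 1) ≤ 2 ^ d`. -/
def Large (r s ℓ m d : ℕ) : Prop :=
  ℓ ≤ d ∧ r * s ≤ d ∧
    24 * m * ℓ * (d + ℓ) ^ ℓ * d ^ 3 *
      (r * ∑ i ∈ Finset.range s, d.choose i * (r - 1) ^ (d - i)) ≤ r ^ d

/-- **Main theorem.** All large `d` satisfy the explicit condition `Large r s ℓ m d`, and under this condition every
finite loopless digraph with all outdegrees at least `d` has a partition into `r` nonempty classes in which every vertex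
has at least `s` out-neighbours in its own class, or it has a vertex with more than `m` legs of size `ℓ`. -/
theorem result : ∀ r s ℓ m : ℕ, 2 ≤ r → 1 ≤ s → 1 ≤ ℓ → 1 ≤ m →
    (∃ d₀ : ℕ, ∀ d ≥ d₀, Large r s ℓ m d) ∧
    ∀ d : ℕ, Large r s ℓ m d → ∀ (V : Type) [Finite V] [Nonempty V] (G : Digraph V),
      (∀ v, ¬ G.Adj v v) → (∀ v, d ≤ {w | G.Adj v w}.ncard) →
      SplitsInto G r s ∨ ∃ y P K, Legs G ℓ y P K ∧ m < P.card := by
  intro r s ℓ m hr hs hℓ hm
  constructor
  · obtain ⟨D, hD⟩ := exists_large' r s ℓ m hr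
    refine ⟨max D (max ℓ (r * s)), fun d hd => ?_⟩
    have h1 : D ≤ d := le_trans (le_max_left _ _) hd
    have h2 : max ℓ (r * s) ≤ d := le_trans (le_max_right _ _) hd
    exact ⟨le_trans (le_max_left _ _) h2, le_trans (le_max_right _ _) h2, hD d h1⟩
  intro d hL V _ _ G hloop hdeg
  obtain ⟨hℓd, hrs, hcond⟩ := hL
  classical
  have : Fintype V := Fintype.ofFinite V
  have : Nonempty (Fin r) := ⟨⟨0, by omega⟩⟩
  let N : V → Finset V := fun v => Finset.univ.filter (fun w => G.Adj v w)
  have hN : ∀ v w, w ∈ N v ↔ G.Adj v w := fun v w => by simp [N]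
  have hNloop : ∀ v, v ∉ N v := fun v h => hloop v ((hN v v).mp h)
  have hNcard : ∀ v, d ≤ (N v).card := by
    intro v
    have h2 : {w | G.Adj v w} = (N v : Set V) := by
      ext w
      simp [N]
    have h3 := hdeg v
    rwa [h2, Set.ncard_coe_finset] at h3
  have hrs1 : 1 ≤ r * s := Nat.mul_pos (by omega) (by omega)
  have hcond' : 8 * (3 * m * (ℓ * (d + ℓ) ^ ℓ)) * d ^ 3 *
      (Fintype.card (Fin r) * few (Fintype.card (Fin r)) s d) ≤ Fintype.card (Fin r) ^ d := by
    rw [Fintype.card_fin]
    refine le_trans (le_of_eq ?_) hcond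
    unfold few
    ring
  rcases split_or_legs (C := Fin r) N hNloop s d ℓ m hs (by omega) hℓ hm hℓd
    (by rw [Fintype.card_fin]; exact hrs) hcond' hNcard with ⟨c, hc, hall⟩ | ⟨y, P, K, hL⟩
  · left
    refine ⟨c, hall, fun v => ?_⟩
    have h2 : {w | c w = c v ∧ G.Adj v w} =
        (((N v).filter (fun u => c u = c v) : Finset V) : Set V) := by
      ext w
      simp [N, and_comm]
    rw [h2, Set.ncard_coe_finset]
    exact hc v
  · right
    refine ⟨y, P, K, ⟨?_, ?_⟩, hL.card⟩
    · intro v hv
      refine ⟨(hN v y).mp (hL.adj v hv), hL.mem v hv, hL.size v hv, hL.notMem v hv, ?_⟩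
      intro x hx
      have h4 : ∀ a b : V, (a ∈ K v ∧ b ∈ K v ∧ b ∈ N a) → (a ∈ K v ∧ b ∈ K v ∧ G.Adj a b) :=
        fun a b hab => ⟨hab.1, hab.2.1, (hN a b).mp hab.2.2⟩
      have h5 : Relation.ReflTransGen (fun a b : V => a ∈ K v ∧ b ∈ K v ∧ b ∈ N a) x v :=
        hL.reach v hv x hx
      exact Relation.ReflTransGen.mono h4 _ _ h5
    · intro u hu v hv huv
      refine ⟨hL.disj u hu v hv huv, ?_⟩
      intro x hx z hz hxz
      exact hL.anti u hu v hv huv x hx z hz ((hN x z).mpr hxz)

end Pool.Agent.Results.MP_e12783_co.LegsOrSplit
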