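import Mathlib
import Pool.Agent.Lib_MP_e12783_co.Final
import Pool.Agent.Lib_MP_e12783_co.Asymp

set_option autoImplicit false

/-!
# Splitting digraphs: an unsplittable digraph has exponentially many hubs

A digraph of large minimum outdegree `d` without a partition into two classes of minimum outdegree at least two
has at least `2 ^ ((1 - ε) d)` vertices `y` each of which is a hub: `y` is the common out-neighbour of exponentially
many pairwise disjoint and pairwise anticomplete connected sets of `ℓ` vertices.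

Method: a matching (Hall) argument assigns to every vertex that sees few hubs a bounded-load set of out-neighbours;
the hubs are coloured by a partition for which no hub is forced, found by a bound for `r`-wise `t`-intersecting
up-sets; the remaining free vertices are coloured with the Lovász local lemma.
-/

namespace Pool.Agent.Results.MP_e12783_co.ManyHubs

open Pool.Agent.Lib_MP_e12783_co

variable {V : Type}

/-- The vertices can be partitioned into two nonempty classes such that every vertex has at least two out-neighbours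
in its own class. -/
def Splits (G : Digraph V) : Prop :=
  ∃ S : Set V, S.Nonempty ∧ Sᶜ.Nonempty ∧
    (∀ v ∈ S, 2 ≤ {w | w ∈ S ∧ G.Adj v w}.ncard) ∧
    (∀ v ∈ Sᶜ, 2 ≤ {w | w ∈ Sᶜ ∧ G.Adj v w}.ncard)

/-- The vertices `v ∈ P` are in-neighbours of `y`, and the sets `K v` (`v ∈ P`) are legs of size `ℓ`: `K v` has `ℓ`
vertices, contains `v` but not `y`, and every vertex of `K v` has a directed path to `v` inside `K v`; different legs
are disjoint and there is no arc between them. -/
def Legs (G : Digraph V) (ℓ : ℕ) (y : V) (P : Finset V) (K : V → Finset V) : Prop :=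
  (∀ v ∈ P, G.Adj v y ∧ v ∈ K v ∧ (K v).card = ℓ ∧ y ∉ K v ∧
    ∀ x ∈ K v, Relation.ReflTransGen (fun a b => a ∈ K v ∧ b ∈ K v ∧ G.Adj a b) x v) ∧
  ∀ u ∈ P, ∀ v ∈ P, u ≠ v → Disjoint (K u) (K v) ∧ ∀ x ∈ K u, ∀ z ∈ K v, ¬ G.Adj x z

/-- The vertices `y` which have a system of more than `b` legs of size `ℓ`. -/
def hubs (G : Digraph V) (ℓ : ℕ) (b : ℝ) : Set V :=
  {y | ∃ P K, Legs G ℓ y P K ∧ b < P.card}

/-- **Main theorem.** Let `0 < ε < 1`.  For all large `d` and all `ℓ ≥ 1` with `d ^ ℓ ≤ 2 ^ (ε² d / 1000)`: every finite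
loopless digraph with all outdegrees at least `d` has a partition into two nonempty classes in which every vertex has
at least two out-neighbours in its own class, or it has at least `2 ^ ((1 - ε) d)` vertices with more than
`2 ^ (ε² d / 100)` legs of size `ℓ` each. -/
theorem result : ∀ ε : ℝ, 0 < ε → ε < 1 → ∃ d₀ : ℕ, ∀ d : ℕ, d₀ ≤ d →
    ∀ ℓ : ℕ, 1 ≤ ℓ → (d : ℝ) ^ ℓ ≤ (2 : ℝ) ^ (ε ^ 2 * d / 1000) →
    ∀ (V : Type) [Finite V] [Nonempty V] (G : Digraph V),
      (∀ v, ¬ G.Adj v v) → (∀ v, d ≤ {w | G.Adj v w}.ncard) →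
      Splits G ∨ (2 : ℝ) ^ ((1 - ε) * d) ≤ (hubs G ℓ ((2 : ℝ) ^ (ε ^ 2 * d / 100))).ncard := by
  intro ε h0 h1
  obtain ⟨r, hr, d₀, hpar⟩ := exists_params ε h0 h1
  refine ⟨d₀, ?_⟩
  intro d hd ℓ hℓ hdℓ V _ _ G hloop hdeg
  obtain ⟨σ, m, hσ, hm, hσd, hmbig, hcount, hcond⟩ := hpar d hd
  obtain ⟨hℓd, hcond⟩ := hcond ℓ hℓ hdℓ
  by_cases hbig : (2 : ℝ) ^ ((1 - ε) * d) ≤ (hubs G ℓ ((2 : ℝ) ^ (ε ^ 2 * d / 100))).ncard
  · exact Or.inr hbig
  left
  push Not at hbig
  classical
  have : Fintype V := Fintype.ofFinite V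
  let N : V → Finset V := fun v => Finset.univ.filter (fun w => G.Adj v w)
  have hN : ∀ v w, w ∈ N v ↔ G.Adj v w := fun v w => by simp [N]
  have hNloop : ∀ v, v ∉ N v := fun v h => hloop v ((hN v v).mp h)
  have hNcard : ∀ v, d ≤ (N v).card := by
    intro v
    have h2 : {w | G.Adj v w} = (N v : Set V) := by
      ext w
      simp [N]
    have h3 := hdeg v
    rwa [h2, Set.ncard_coe_finset] at h3
  set B := (2 : ℝ) ^ (ε ^ 2 * d / 100) with hB
  let hub : Finset V := (Set.toFinite (hubs G ℓ B)).toFinset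
  have hhubcard : hub.card = (hubs G ℓ B).ncard := by
    rw [Set.ncard_eq_toFinset_card _ (Set.toFinite (hubs G ℓ B))]
  have hhub : ∀ y P K, IsLegs N ℓ m y P K → y ∈ hub := by
    intro y P K hL
    rw [Set.Finite.mem_toFinset]
    refine ⟨P, K, ⟨?_, ?_⟩, ?_⟩
    · intro v hv
      refine ⟨(hN v y).mp (hL.adj v hv), hL.mem v hv, hL.size v hv, hL.notMem v hv, ?_⟩
      intro x hx
      have h4 : ∀ a b : V, (a ∈ K v ∧ b ∈ K v ∧ b ∈ N a) → (a ∈ K v ∧ b ∈ K v ∧ G.Adj a b) :=
        fun a b hab => ⟨hab.1, hab.2.1, (hN a b).mp hab.2.2⟩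
      have h5 : Relation.ReflTransGen (fun a b : V => a ∈ K v ∧ b ∈ K v ∧ b ∈ N a) x v :=
        hL.reach v hv x hx
      exact Relation.ReflTransGen.mono h4 _ _ h5
    · intro u hu v hv huv
      refine ⟨hL.disj u hu v hv huv, ?_⟩
      intro x hx z hz hxz
      exact hL.anti u hu v hv huv x hx z hz ((hN x z).mpr hxz)
    · have h2 : (m : ℝ) < P.card := by exact_mod_cast hL.card
      linarith
  have hlt : (2 * hub.card) ^ r < (2 ^ (r - 1)) ^ (d - 2 * r * σ) := by
    refine hcount hub.card ?_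
    rw [hhubcard]
    exact hbig
  obtain ⟨c, hc, hall⟩ := split_of_few_hubs N hNloop d r σ ℓ m hr hσ hℓ hm hℓd hσd hcond hNcard hub
    hhub hlt
  have hcc : ∀ v, {w | c w = c v ∧ G.Adj v w} =
      (((N v).filter (fun u => c u = c v) : Finset V) : Set V) := by
    intro v
    ext w
    simp [N, and_comm]
  refine ⟨{v | c v = true}, ?_, ?_, ?_, ?_⟩
  · obtain ⟨v, hv⟩ := hall true
    exact ⟨v, hv⟩
  · obtain ⟨v, hv⟩ := hall false
    exact ⟨v, by simp [hv]⟩
  · intro v hv
    have hv' : c v = true := hv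
    have h2 : {w | w ∈ {v | c v = true} ∧ G.Adj v w} = {w | c w = c v ∧ G.Adj v w} := by
      ext w
      simp [hv']
    rw [h2, hcc, Set.ncard_coe_finset]
    exact hc v
  · intro v hv
    have hv' : c v = false := by simpa using hv
    have h2 : {w | w ∈ {v | c v = true}ᶜ ∧ G.Adj v w} = {w | c w = c v ∧ G.Adj v w} := by
      ext w
      simp [hv']
    rw [h2, hcc, Set.ncard_coe_finset]
    exact hc v

end Pool.Agent.Results.MP_e12783_co.ManyHubs
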